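import Pool.Agent.H34.TF.Surg

set_option autoImplicit false

/-!
# Solid tori, Klein bottles and Seifert pieces with bounded slopes
-/

namespace Pool.Agent.H34.TF

open Pool.Agent.Q138.LO

theorem comm_shift {G : Type*} [Group G] {a b : G} (h : Commute a b) (m i j k l : ℤ) :
    (a ^ i * b ^ j) ^ (-m) * (a ^ k * b ^ l) = a ^ (k - m * i) * b ^ (l - m * j) := by
  have h1 : Commute (a ^ i) (b ^ j) := (h.zpow_left i).zpow_right j
  rw [h1.mul_zpow, ← zpow_mul, ← zpow_mul]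
  have h2 : b ^ (j * -m) * a ^ k = a ^ k * b ^ (j * -m) := ((h.zpow_left k).zpow_right _).eq.symm
  calc a ^ (i * -m) * b ^ (j * -m) * (a ^ k * b ^ l)
      = a ^ (i * -m) * (b ^ (j * -m) * a ^ k) * b ^ l := by group
    _ = (a ^ (i * -m) * a ^ k) * (b ^ (j * -m) * b ^ l) := by rw [h2]; group
    _ = _ := by
        rw [← zpow_add, ← zpow_add]
        congr 2 <;> ring

/-- The second peripheral element is, for all slopes that can be seen by orders, more than the `m`-th
power of the first. -/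
def Above (m : ℕ) : Filling → Prop
  | .solid p q => 1 ≤ p ∧ m * p < q
  | .klein _ j _ l => 1 ≤ j ∧ m * j < l
  | .seifert n α β i j k l => 2 ≤ n ∧ (∀ s, 0 < β s) ∧ (∀ s, β s < α s) ∧ InCone α β i j ∧
      InCone α β (k - m * i) (l - m * j)

theorem solid_shift (m p q : ℕ) (h : m * p ≤ q) :
    Multiplicative.ofAdd (p : ℤ) ^ (-(m : ℤ)) * Multiplicative.ofAdd (q : ℤ) =
      Multiplicative.ofAdd ((q - m * p : ℕ) : ℤ) := by
  rw [← ofAdd_zsmul, ← ofAdd_add]
  congr 1
  push_cast [h]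
  simp only [smul_eq_mul]
  ring

theorem klein_comm : Commute ky (kx ^ (2 : ℤ)) := by
  have h1 : kx * ky * kx⁻¹ = ky⁻¹ := klein_rel
  have h2 : kx ^ (2 : ℤ) * ky * (kx ^ (2 : ℤ))⁻¹ = ky := by
    have e : kx ^ (2 : ℤ) = kx * kx := by
      rw [show (2 : ℤ) = 1 + 1 from rfl, zpow_add, zpow_one]
    calc kx ^ (2 : ℤ) * ky * (kx ^ (2 : ℤ))⁻¹ = kx * (kx * ky * kx⁻¹) * kx⁻¹ := by rw [e]; group
      _ = kx * ky⁻¹ * kx⁻¹ := by rw [h1]
      _ = (kx * ky * kx⁻¹)⁻¹ := by group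
      _ = ky := by rw [h1, inv_inv]
  exact (mul_inv_eq_iff_eq_mul.mp h2).symm

theorem seif_comm' {n : ℕ} {α β : Fin n → ℕ} : Commute (sc n α β) (sh n α β) := by
  refine Commute.list_prod_left _ _ fun g hg => ?_
  obtain ⟨s, rfl⟩ := (List.mem_ofFn' _ g).mp hg
  exact seif_comm s

theorem Above.good {m : ℕ} {F : Filling} (h : Above m F) :
    Good F.piece.u (rest m F.piece) := by
  cases F with
  | solid p q =>
    obtain ⟨h1, h2⟩ := h
    show Good (Multiplicative.ofAdd (p : ℤ))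
      (Multiplicative.ofAdd (p : ℤ) ^ (-(m : ℤ)) * Multiplicative.ofAdd (q : ℤ))
    rw [solid_shift m p q h2.le]
    exact solid_good h1 (by omega)
  | klein i j k l =>
    obtain ⟨h1, h2⟩ := h
    show Good (ky ^ i * kx ^ (2 * j)) ((ky ^ i * kx ^ (2 * j)) ^ (-(m : ℤ)) *
      (ky ^ k * kx ^ (2 * l)))
    have e : (ky ^ i * kx ^ (2 * j)) ^ (-(m : ℤ)) * (ky ^ k * kx ^ (2 * l)) =
        ky ^ (k - m * i) * kx ^ (2 * (l - m * j)) := by
      rw [zpow_mul, zpow_mul kx 2 l, zpow_mul kx 2 (l - m * j)]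
      exact comm_shift klein_comm m i j k l
    rw [e]
    exact klein_good _ _ h1 (by linarith)
  | seifert n α β i j k l =>
    obtain ⟨h1, h2, h3, h4, h5⟩ := h
    show Good (sc n α β ^ i * sh n α β ^ j)
      ((sc n α β ^ i * sh n α β ^ j) ^ (-(m : ℤ)) * (sc n α β ^ k * sh n α β ^ l))
    rw [comm_shift seif_comm']
    exact seif_good h1 h2 h3 h4 h5

theorem solid_aux {m p q : ℕ} (hp : 1 ≤ p) (h : m * p ≤ q) (X : Type) [LinearOrder X]
    (φ : Multiplicative ℤ →* (X ≃o X)) (x : X) :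
    (x ≤ φ (Multiplicative.ofAdd (p : ℤ)) x →
      x ≤ φ (Multiplicative.ofAdd (p : ℤ) ^ (-(m : ℤ)) * Multiplicative.ofAdd (q : ℤ)) x) ∧
    (φ (Multiplicative.ofAdd (p : ℤ)) x ≤ x →
      φ (Multiplicative.ofAdd (p : ℤ) ^ (-(m : ℤ)) * Multiplicative.ofAdd (q : ℤ)) x ≤ x) ∧
    (φ (Multiplicative.ofAdd (p : ℤ)) x = x → ∀ k, φ k x = x) := by
  rw [solid_shift m p q h, ofAdd_nat, ofAdd_nat, map_pow, map_pow]
  refine ⟨fun hx => ?_, fun hx => ?_, fun hx => ?_⟩
  · rcases le_or_gt x (φ (Multiplicative.ofAdd (1 : ℤ)) x) with h1 | h1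
    · exact le_pow' h1 _
    · exact absurd hx (not_le.mpr (pow_lt' h1 hp))
  · rcases le_or_gt (φ (Multiplicative.ofAdd (1 : ℤ)) x) x with h1 | h1
    · exact pow_le' h1 _
    · exact absurd hx (not_le.mpr (lt_pow' h1 hp))
  · have h1 := eq_of_pow hp hx
    refine fix_of_gen φ x {Multiplicative.ofAdd (1 : ℤ)} ?_ ?_
    · rw [Subgroup.eq_top_iff']
      intro k
      rw [Subgroup.mem_closure_singleton]
      exact ⟨Multiplicative.toAdd k, by rw [← ofAdd_zsmul]; simp⟩
    · intro s hs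
      rw [Set.mem_singleton_iff.mp hs]; exact h1

/-- The solid torus with the slope equal to the bound. -/
theorem solid_atLeast {m p q : ℕ} (hp : 1 ≤ p) (h : m * p ≤ q) :
    AtLeast m (Filling.solid p q).piece := fun X _ φ x =>
  ⟨⟨(solid_aux hp h X φ x).1, (solid_aux hp h X φ x).2.1⟩, (solid_aux hp h X φ x).2.2⟩

/-- Bounds for the standard pieces: above the bound, or solid tori at the bound. -/
def Bounded (m : ℕ) : Filling → Prop
  | .solid p q => 1 ≤ p ∧ m * p ≤ q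
  | F => Above m F

theorem Bounded.atLeast {m : ℕ} {F : Filling} (h : Bounded m F) : AtLeast m F.piece := by
  cases F with
  | solid p q => exact solid_atLeast h.1 h.2
  | klein i j k l => exact AtLeast.of_good (Above.good (F := .klein i j k l) h)
  | seifert n α β i j k l => exact AtLeast.of_good (Above.good (F := .seifert n α β i j k l) h)

end Pool.Agent.H34.TF
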