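import Pool.Graph.R_pool_sql_team_seeded_3997aac3.Q184.TP.Tang
import Pool.Graph.R_pool_sql_team_seeded_2aa45f1a.Q138.LO.Glue

set_option autoImplicit false
set_option linter.unusedSectionVars false

/-!
# Antiparallel twist regions with a piece in each of the three sheets

The crossing circle of a twist region with antiparallel strings lifts to three circles in the 3-fold
cyclic cover. A piece (a group with two peripheral elements) is glued to each of the three tori.
-/

namespace Pool.Agent.H34.TF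

open Pool.Agent.Y479.LS Pool.Agent.Q184.TP Pool.Agent.Q138.LO
open Pool.Agent.Q184.TP.Tangle (fam)

/-! ### Comparisons -/

section sem

variable {X : Type*} [LinearOrder X]

/-- `A` does not move down a point which `g` does not move down, and the same with up for down. -/
structure Follows (g A : Aut X) : Prop where
  up : ∀ x, x ≤ g x → x ≤ A x
  down : ∀ x, g x ≤ x → A x ≤ x

theorem Follows.fix {g A : Aut X} (h : Follows g A) {x : X} (e : g x = x) : A x = x :=
  le_antisymm (h.down x e.le) (h.up x e.ge)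

theorem Follows.dual {g A : Aut X} (h : Follows g A) : Follows (Aut.dual g) (Aut.dual A) :=
  ⟨fun x hx => h.down (OrderDual.ofDual x) hx, fun x hx => h.up (OrderDual.ofDual x) hx⟩

variable {κ D a b : ZMod 3 → Aut X}

theorem follow_W1 (hD : ∀ k, Follows (κ k) (D k)) (hb : ∀ k, b k = D k * a k * (D (k + 1))⁻¹)
    (i : ZMod 3) (p r : X) (h1 : κ i r ≤ r) (h2 : p ≤ κ (i + 1) p) (h3 : a i p ≤ r)
    (h4 : r ≤ b i p) : a i p = r ∧ b i p = r ∧ D i r = r ∧ D (i + 1) p = p := by
  have e : b i p = D i (a i ((D (i + 1))⁻¹ p)) := by rw [hb]; rfl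
  rw [e] at h4 ⊢
  have d1 : (D (i + 1))⁻¹ p ≤ p := by rw [inv_le_iff]; exact (hD _).up _ h2
  have d2 : D i r ≤ r := (hD _).down _ h1
  have s1 : a i ((D (i + 1))⁻¹ p) ≤ a i p := (Aut.le_iff _).mpr d1
  have s2 : D i (a i ((D (i + 1))⁻¹ p)) ≤ D i r := (Aut.le_iff _).mpr (s1.trans h3)
  have t1 : D i (a i ((D (i + 1))⁻¹ p)) = r := le_antisymm (s2.trans d2) h4
  have t2 : D i r = r := le_antisymm d2 (h4.trans s2)
  have t3 : a i ((D (i + 1))⁻¹ p) = r := by
    rw [← Aut.inj (D i), t1, t2]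
  have t4 : a i p = r := le_antisymm h3 (by rw [← t3]; exact s1)
  have t5 : (D (i + 1))⁻¹ p = p := by rw [← Aut.inj (a i), t3, t4]
  refine ⟨t4, t1, t2, ?_⟩
  conv_lhs => rw [← t5]
  exact Aut.self_inv _ _

theorem follow_W (hD : ∀ k, Follows (κ k) (D k)) (hb : ∀ k, b k = D k * a k * (D (k + 1))⁻¹) :
    W κ a b := by
  constructor
  · intro i p r h1 h2 h3 h4
    have := follow_W1 hD hb i p r h1 h2 h3 h4
    exact ⟨this.1, this.2.1⟩
  · have h : W1 (dualF κ) (dualF a) (dualF b) := by
      intro i p r h1 h2 h3 h4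
      have := follow_W1 (κ := dualF κ) (D := dualF D) (a := dualF a) (b := dualF b)
        (fun k => (hD k).dual) (fun k => by
          show Aut.dual (b k) = Aut.dual (D k) * Aut.dual (a k) * (Aut.dual (D (k + 1)))⁻¹
          rw [hb, map_mul, map_mul, map_inv]) i p r h1 h2 h3 h4
      exact ⟨this.1, this.2.1⟩
    exact h

theorem follow_P1 (hD : ∀ k, Follows (κ k) (D k)) (hD' : ∀ k, Follows (D k) (κ k))
    (hb : ∀ k, b k = D k * a k * (D (k + 1))⁻¹) : P1 κ a b := by
  intro i p r h1 h2 h3 h4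
  obtain ⟨e1, e2, e3, e4⟩ := follow_W1 hD hb i p r h1 h2 h3 h4
  exact ⟨e1, e2, (hD' i).fix e3, (hD' (i + 1)).fix e4⟩

theorem follow_P (hD : ∀ k, Follows (κ k) (D k)) (hD' : ∀ k, Follows (D k) (κ k))
    (hb : ∀ k, b k = D k * a k * (D (k + 1))⁻¹) : P κ a b := by
  refine ⟨follow_P1 hD hD' hb, ?_⟩
  have h := follow_P1 (κ := dualF κ) (D := dualF D) (a := dualF a) (b := dualF b)
    (fun k => (hD k).dual) (fun k => (hD' k).dual) (fun k => by
      show Aut.dual (b k) = Aut.dual (D k) * Aut.dual (a k) * (Aut.dual (D (k + 1)))⁻¹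
      rw [hb, map_mul, map_mul, map_inv])
  exact P1.undual h

end sem

/-! ### Conditions on pieces -/

/-- The element `u ^ (-m) v` of the piece. -/
def rest (m : ℕ) (P : Piece) : P.K := P.u ^ (-(m : ℤ)) * P.v

/-- `g` does not move `x` down if `f` does not, and the same with up for down. -/
def Weakly {X : Type} [LinearOrder X] (f g : X ≃o X) (x : X) : Prop :=
  (x ≤ f x → x ≤ g x) ∧ (f x ≤ x → g x ≤ x)

/-- The points fixed by `u` are fixed by the piece. -/
def Fixes (P : Piece) {X : Type} [LinearOrder X] (φ : P.K →* (X ≃o X)) (x : X) : Prop :=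
  φ P.u x = x → ∀ k, φ k x = x

/-- In every action on a linear order, `v` moves the points that `u` moves up at least as far as
`u ^ m`, and dually; the points fixed by `u` are fixed by the piece. -/
def AtLeast (m : ℕ) (P : Piece) : Prop :=
  ∀ (X : Type) [LinearOrder X] (φ : P.K →* (X ≃o X)) (x : X),
    Weakly (φ P.u) (φ (rest m P)) x ∧ Fixes P φ x

theorem AtLeast.pred {m : ℕ} {P : Piece} (h : AtLeast (m + 1) P) : AtLeast m P := by
  intro X _ φ x
  obtain ⟨⟨h1, h2⟩, h3⟩ := h X φ x
  have e : φ (rest m P) x = φ P.u (φ (rest (m + 1) P) x) := by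
    rw [← mul_ap, ← map_mul]
    congr 2
    unfold rest
    push_cast
    rw [← mul_assoc, ← zpow_one_add]
    congr 2
    ring
  refine ⟨⟨fun hx => ?_, fun hx => ?_⟩, h3⟩
  · rw [e]
    exact hx.trans ((φ P.u).monotone (h1 hx))
  · rw [e]
    exact ((φ P.u).monotone (h2 hx)).trans hx

theorem AtLeast.mono {m n : ℕ} (hmn : m ≤ n) {P : Piece} (h : AtLeast n P) : AtLeast m P := by
  induction n, hmn using Nat.le_induction with
  | base => exact h
  | succ n _ ih => exact ih h.pred

theorem AtLeast.of_good {m : ℕ} {P : Piece} (h : Good P.u (rest m P)) : AtLeast m P := by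
  intro X _ φ x
  obtain ⟨h1, h2, h3⟩ := h X φ x
  exact ⟨⟨h2.mp, h1.mp⟩, h3⟩

/-! ### The tangle -/

section surg

variable (e : ℤ) (P : ZMod 3 → Piece)

/-- The generators: the lifts of the meridians of the two strings, and the elements of the pieces. -/
abbrev SGen : Type := (Bool × ZMod 3) ⊕ (Σ i, (P i).K)

/-- the lifts of the meridian of the upper (`false`) and of the lower (`true`) string at the western
ends -/
def str (b : Bool) (i : ZMod 3) : FreeGroup (SGen P) := FreeGroup.of (Sum.inl (b, i))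

/-- the elements of the piece in the sheet `i` -/
def el (i : ZMod 3) (k : (P i).K) : FreeGroup (SGen P) := FreeGroup.of (Sum.inr ⟨i, k⟩)

/-- the lifts of the loop around the two strings, which is a longitude of the crossing circle -/
def lp (i : ZMod 3) : FreeGroup (SGen P) := str P false i * (str P true i)⁻¹

/-- The product of the three lifts of the meridian of a string is one (branching). -/
def branchRel : Set (FreeGroup (SGen P)) := Set.range fun b => str P b 0 * str P b 1 * str P b 2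

/-- The multiplication tables of the three pieces. -/
def tableRel : Set (FreeGroup (SGen P)) :=
  ⋃ i, Set.range fun k : (P i).K × (P i).K => el P i k.1 * el P i k.2 * (el P i (k.1 * k.2))⁻¹

/-- The longitude. -/
def longRel : Set (FreeGroup (SGen P)) := Set.range fun i => el P i (P i).u * (lp P i ^ e)⁻¹

/-- The meridian of the circle and its longitude commute. -/
def commRel : Set (FreeGroup (SGen P)) :=
  Set.range fun i => el P i (P i).v * lp P i * (el P i (P i).v)⁻¹ * (lp P i)⁻¹

/-- The meridians of the strings at the eastern ends. -/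
def east (b : Bool) (i : ZMod 3) : FreeGroup (SGen P) :=
  el P i (P i).v * str P b i * (el P (i + 1) (P (i + 1)).v)⁻¹

/-- A twist region (two antiparallel strings) whose crossing circle is replaced, in the sheet `i` of the
3-fold cyclic cover, by the piece `P i`: the lift of the `e`-th power of the longitude is identified
with `(P i).u` and the lift of the meridian of the circle with `(P i).v`. From the west to the east the
meridians of the strings are conjugated by the meridian of the circle. -/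
def surg : Tangle where
  gen := SGen P
  rel := branchRel P ∪ tableRel P ∪ longRel e P ∪ commRel P
  nw := str P false
  sw := str P true
  ne := east P false
  se := east P true

variable {e P}
variable {X : Type} [LinearOrder X]

/-- what an action of the group of the tangle gives -/
theorem surg_data (φ : FreeGroup (surg e P).gen →* Aut X) (hφ : (surg e P).Sat φ) :
    ∃ ρ : ∀ i, (P i).K →* Aut X, (∀ i k, φ (el P i k) = ρ i k) ∧
      (∀ i, ρ i (P i).u = (surg e P).loop φ i ^ e) ∧
      (∀ i, ρ i (P i).v * (surg e P).loop φ i = (surg e P).loop φ i * ρ i (P i).v) ∧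
      Cyc (fam φ (surg e P).nw) ∧ Cyc (fam φ (surg e P).sw) ∧
      (∀ i, fam φ (surg e P).ne i =
        ρ i (P i).v * fam φ (surg e P).nw i * (ρ (i + 1) (P (i + 1)).v)⁻¹) ∧
      (∀ i, fam φ (surg e P).se i =
        ρ i (P i).v * fam φ (surg e P).sw i * (ρ (i + 1) (P (i + 1)).v)⁻¹) := by
  change FreeGroup (SGen P) →* Aut X at φ
  have hmul : ∀ i (k k' : (P i).K), φ (el P i (k * k')) = φ (el P i k) * φ (el P i k') := by
    intro i k k'
    have h := hφ _ (Or.inl (Or.inl (Or.inr (Set.mem_iUnion.mpr ⟨i, (k, k'), rfl⟩))))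
    change φ (el P i k * el P i k' * (el P i (k * k'))⁻¹) = 1 at h
    rw [map_mul, map_mul, map_inv, mul_inv_eq_one] at h
    exact h.symm
  have hlp : ∀ i, (surg e P).loop φ i = φ (lp P i) := by
    intro i
    show φ (str P false i) * (φ (str P true i))⁻¹ = φ (str P false i * (str P true i)⁻¹)
    rw [map_mul, map_inv]
  refine ⟨fun i => MonoidHom.mk' (fun k => φ (el P i k)) (hmul i), fun i k => rfl, fun i => ?_,
    fun i => ?_, ?_, ?_, fun i => ?_, fun i => ?_⟩
  · have h := hφ _ (Or.inl (Or.inr ⟨i, rfl⟩))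
    change φ (el P i (P i).u * (lp P i ^ e)⁻¹) = 1 at h
    rw [map_mul, map_inv, map_zpow, mul_inv_eq_one] at h
    rw [hlp]
    exact h
  · have h := hφ _ (Or.inr ⟨i, rfl⟩)
    change φ (el P i (P i).v * lp P i * (el P i (P i).v)⁻¹ * (lp P i)⁻¹) = 1 at h
    rw [map_mul, map_mul, map_mul, map_inv, map_inv, mul_inv_eq_one, mul_inv_eq_iff_eq_mul] at h
    rw [hlp]
    exact h
  · apply Cyc.of_zero
    have h := hφ _ (Or.inl (Or.inl (Or.inl ⟨false, rfl⟩)))
    change φ (str P false 0 * str P false 1 * str P false 2) = 1 at h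
    rw [map_mul, map_mul] at h
    exact h
  · apply Cyc.of_zero
    have h := hφ _ (Or.inl (Or.inl (Or.inl ⟨true, rfl⟩)))
    change φ (str P true 0 * str P true 1 * str P true 2) = 1 at h
    rw [map_mul, map_mul] at h
    exact h
  · show φ (el P i (P i).v * str P false i * (el P (i + 1) (P (i + 1)).v)⁻¹) = _
    rw [map_mul, map_mul, map_inv]
    rfl
  · show φ (el P i (P i).v * str P true i * (el P (i + 1) (P (i + 1)).v)⁻¹) = _
    rw [map_mul, map_mul, map_inv]
    rfl

theorem conj_cyc {G : Type*} [Group G] {a b B : ZMod 3 → G} (h : Cyc a)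
    (hb : ∀ i, b i = B i * a i * (B (i + 1))⁻¹) : Cyc b := by
  intro i
  rw [hb, hb, hb, i11, i21]
  have h1 := h i
  calc B i * a i * (B (i + 1))⁻¹ * (B (i + 1) * a (i + 1) * (B (i + 2))⁻¹) *
        (B (i + 2) * a (i + 2) * (B i)⁻¹) = B i * (a i * a (i + 1) * a (i + 2)) * (B i)⁻¹ := by group
    _ = 1 := by rw [h1]; group

theorem surg_std : (surg e P).Std := by
  refine ⟨?_, ?_, ?_, ?_, ?_⟩
  · intro X _ φ hφ
    obtain ⟨ρ, -, -, -, h, -⟩ := surg_data φ hφ
    exact h
  · intro X _ φ hφ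
    obtain ⟨ρ, -, -, -, -, h, -⟩ := surg_data φ hφ
    exact h
  · intro X _ φ hφ
    obtain ⟨ρ, -, -, -, h, -, h1, -⟩ := surg_data φ hφ
    exact conj_cyc (B := fun i => ρ i (P i).v) h h1
  · intro X _ φ hφ
    obtain ⟨ρ, -, -, -, -, h, -, h1⟩ := surg_data φ hφ
    exact conj_cyc (B := fun i => ρ i (P i).v) h h1
  · intro X _ φ hφ i
    obtain ⟨ρ, -, -, h3, -, -, h1, h2⟩ := surg_data φ hφ
    have e1 := h1 i
    have e2 := h2 i
    have e3 := h3 i
    change φ ((surg e P).ne i) = _ at e1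
    change φ ((surg e P).se i) = _ at e2
    change _ * (φ ((surg e P).nw i) * (φ ((surg e P).sw i))⁻¹) =
      φ ((surg e P).nw i) * (φ ((surg e P).sw i))⁻¹ * _ at e3
    rw [e1, e2]
    change _ = ρ i (P i).v * φ ((surg e P).nw i) * (ρ (i + 1) (P (i + 1)).v)⁻¹ *
      (ρ i (P i).v * φ ((surg e P).sw i) * (ρ (i + 1) (P (i + 1)).v)⁻¹)⁻¹
    generalize ρ i (P i).v = B at e3 ⊢
    generalize ρ (i + 1) (P (i + 1)).v = C
    generalize φ ((surg e P).nw i) = x at e3 ⊢
    generalize φ ((surg e P).sw i) = y at e3 ⊢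
    calc x * y⁻¹ = (x * y⁻¹) * B * B⁻¹ := by group
      _ = B * (x * y⁻¹) * B⁻¹ := by rw [← e3]
      _ = _ := by group

/-- the shifted family -/
theorem surg_shift (m : ℕ) (φ : FreeGroup (surg e P).gen →* Aut X)
    (ρ : ∀ i, (P i).K →* Aut X) (h1 : ∀ i, ρ i (P i).u = (surg e P).loop φ i ^ e)
    (h2 : ∀ i, ρ i (P i).v * (surg e P).loop φ i = (surg e P).loop φ i * ρ i (P i).v)
    (h3 : ∀ i, fam φ (surg e P).ne i =
        ρ i (P i).v * fam φ (surg e P).nw i * (ρ (i + 1) (P (i + 1)).v)⁻¹) (k : ZMod 3) :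
    Pool.Agent.Q184.TP.sh (Tangle.pwr ((surg e P).loop φ) e) (-(m : ℤ)) (fam φ (surg e P).ne) k =
      ρ k (rest m (P k)) * fam φ (surg e P).nw k *
        (ρ (k + 1) (rest m (P (k + 1))))⁻¹ := by
  show ((surg e P).loop φ k ^ e) ^ (-(m : ℤ)) * fam φ (surg e P).ne k *
    ((surg e P).loop φ (k + 1) ^ e) ^ (-(-(m : ℤ))) = _
  unfold rest
  rw [h3, map_mul, map_mul, map_zpow, map_zpow, h1, h1, mul_inv_rev]
  have c : Commute (ρ (k + 1) (P (k + 1)).v)⁻¹ (((surg e P).loop φ (k + 1) ^ e) ^ (-(-(m : ℤ)))) := by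
    have c0 : Commute (ρ (k + 1) (P (k + 1)).v) ((surg e P).loop φ (k + 1)) := h2 (k + 1)
    exact ((c0.inv_left).zpow_right e).zpow_right _
  have c' := c.eq
  generalize (ρ (k + 1) (P (k + 1)).v)⁻¹ = B' at c' ⊢
  rw [zpow_neg _ (-(m : ℤ))] at c' ⊢
  generalize (((surg e P).loop φ (k + 1) ^ e) ^ (-(m : ℤ)))⁻¹ = K at c' ⊢
  generalize ((surg e P).loop φ k ^ e) ^ (-(m : ℤ)) = L
  generalize ρ k (P k).v = B
  generalize fam φ (surg e P).nw k = x
  calc L * (B * x * B') * K = L * B * x * (B' * K) := by group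
    _ = _ := by rw [c']

theorem surg_nn {m : ℕ} (h : ∀ i, AtLeast m (P i)) :
    (surg e P).NN e (-(m : ℤ)) := by
  intro X _ φ hφ
  obtain ⟨ρ, -, h1, h2, -, -, h3, -⟩ := surg_data φ hφ
  refine follow_W (D := fun k => ρ k (rest m (P k))) (fun k => ?_)
    (surg_shift m φ ρ h1 h2 h3)
  have e1 : Tangle.pwr ((surg e P).loop φ) e k = ρ k (P k).u := (h1 k).symm
  rw [e1]
  exact ⟨fun x => (h k X (ρ k) x).1.1, fun x => (h k X (ρ k) x).1.2⟩

theorem surg_pos {m : ℕ}
    (h : ∀ i, Good (P i).u (rest m (P i))) : (surg e P).Pos e (-(m : ℤ)) := by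
  intro X _ φ hφ
  obtain ⟨ρ, -, h1, h2, -, -, h3, -⟩ := surg_data φ hφ
  refine follow_P (D := fun k => ρ k (rest m (P k))) (fun k => ?_) (fun k => ?_)
    (surg_shift m φ ρ h1 h2 h3)
  · have e1 : Tangle.pwr ((surg e P).loop φ) e k = ρ k (P k).u := (h1 k).symm
    rw [e1]
    exact ⟨fun x => (h k X (ρ k) x).2.1.mp, fun x => (h k X (ρ k) x).1.mp⟩
  · have e1 : Tangle.pwr ((surg e P).loop φ) e k = ρ k (P k).u := (h1 k).symm
    rw [e1]
    exact ⟨fun x => (h k X (ρ k) x).2.1.mpr, fun x => (h k X (ρ k) x).1.mpr⟩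

theorem surg_rig (h : ∀ i, AtLeast 0 (P i)) : (surg e P).Rig := by
  intro X _ φ hφ g1 g2
  obtain ⟨ρ, h0, h1, -⟩ := surg_data φ hφ
  refine Tangle.hom_one φ fun x => ?_
  have hu : ∀ i, ρ i (P i).u = 1 := by
    intro i
    rw [h1]
    show (φ ((surg e P).nw i) * (φ ((surg e P).sw i))⁻¹) ^ e = 1
    rw [g1, g2, inv_one, mul_one, one_zpow]
  rcases x with ⟨b, i⟩ | ⟨i, k⟩
  · cases b
    · exact g1 i
    · exact g2 i
  · show φ (el P i k) = 1
    rw [h0]
    refine Aut.ext' fun x => ?_
    exact (h i X (ρ i) x).2 (by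
      show (ρ i (P i).u) x = x
      rw [hu]; rfl) k

end surg

end Pool.Agent.H34.TF
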