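import Pool.Agent.H34.TF.Surg
import Pool.Graph.R_pool_sql_team_seeded_3997aac3.Q184.TP.Forest

set_option autoImplicit false
set_option linter.unusedSectionVars false

/-!
# Plane trees whose vertices carry three pieces
-/

namespace Pool.Agent.H34.TF

open Pool.Agent.Y479.LS Pool.Agent.Q138.LO
open Pool.Agent.Q184.TP (Tangle sg sg_cases sg_ne)

/-- Plane forests whose vertices have a sign (`true` is `+`) and three pieces, one for each sheet:
`cons s P sub rest` is the tree whose root has the label `(s, P)` and whose root has the children `sub`,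
followed by the forest `rest`. -/
inductive Forest where
  | nil : Forest
  | cons (s : Bool) (P : ZMod 3 → Piece) (sub rest : Forest) : Forest

/-- The sum of the tangle `T` and of a twist region with the pieces `P`. -/
def vert (s : Bool) (P : ZMod 3 → Piece) (T : Tangle) : Tangle := T.add (surg (sg s) P)

namespace Forest

/-- The sum of the inverses of the tangles of the trees of the forest, where the tangle of a tree with
the root `(s, P)` and the forest `F` of the children is `tangle F + surg (± 1) P`. -/
def tangle : Forest → Tangle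
  | nil => Tangle.twist 0
  | cons s P sub rest => (vert s P sub.tangle).inv.add rest.tangle

/-- the number of the roots of the forest whose sign is not `s` -/
def opp (s : Bool) : Forest → ℕ
  | nil => 0
  | cons t _ _ rest => (if t = s then 0 else 1) + rest.opp s

/-- A forest that is attached to a vertex of sign `s` is admissible if for every vertex of it the three
pieces are `AtLeast m`, where `m` is the number of the neighbours (the parent included) of the other
sign, and the vertex has children or the three pieces are good. -/
def Adm (s : Bool) : Forest → Prop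
  | nil => True
  | cons t P sub rest => (∀ i, AtLeast (sub.opp t + (if t = s then 0 else 1)) (P i)) ∧
      ((∀ i, Good (P i).u (P i).v) ∨ sub ≠ nil) ∧ sub.Adm t ∧ rest.Adm s

end Forest

/-- The tree with the root `(s, P)` and the forest `F` of the children is admissible: for every
vertex the three pieces are `AtLeast m`, where `m` is the number of the neighbours of the other sign,
and the vertex has children or the three pieces are good. -/
def Adm (s : Bool) (P : ZMod 3 → Piece) (F : Forest) : Prop :=
  (∀ i, AtLeast (F.opp s) (P i)) ∧ ((∀ i, Good (P i).u (P i).v) ∨ F ≠ Forest.nil) ∧ F.Adm s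

section vert

variable {T : Tangle} {s : Bool} {P : ZMod 3 → Piece}

theorem vert_std (h : T.Std) : (vert s P T).Std := Tangle.add_std h surg_std
theorem vert_rig (h : T.Rig) (hP : ∀ i, AtLeast 0 (P i)) : (vert s P T).Rig :=
  Tangle.add_rig h (surg_rig hP)

theorem vert_pos {m : ℕ} (hs : T.Std) (hm : ∀ i, AtLeast m (P i)) (h : T.Pos (sg s) m) :
    (vert s P T).Pos (sg s) 0 := by
  have h1 := Tangle.add_pos hs h (surg_nn (e := sg s) hm)
  rwa [add_neg_cancel] at h1

theorem vert_pos' (hs : T.Std) (hP : ∀ i, Good (P i).u (P i).v) (h : T.NN (sg s) 0) :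
    (vert s P T).Pos (sg s) 0 := by
  have h1 := Tangle.add_pos' hs h (surg_pos (e := sg s) (m := 0) (P := P) fun i => by
    simpa [rest] using hP i)
  show (T.add (surg (sg s) P)).Pos (sg s) 0
  simpa using h1

theorem vert_nn {m : ℕ} (hs : T.Std) (hm : ∀ i, AtLeast (m + 1) (P i)) (h : T.NN (sg s) m) :
    (vert s P T).NN (sg s) (-1) := by
  have h1 := Tangle.add_nn hs h (surg_nn (e := sg s) hm)
  have e : (m : ℤ) + -((m + 1 : ℕ) : ℤ) = -1 := by push_cast; ring
  rwa [e] at h1

end vert

theorem forest_main (F : Forest) : ∀ s : Bool, F.Adm s →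
    F.tangle.Std ∧ F.tangle.Rig ∧ F.tangle.NN (sg s) (F.opp s) ∧
      (F ≠ Forest.nil → F.tangle.Pos (sg s) (F.opp s)) := by
  induction F with
  | nil =>
    intro s _
    refine ⟨Tangle.twist_std 0, Tangle.twist_rig 0, ?_, fun h => absurd rfl h⟩
    have := Tangle.twist_nn (sg s) 0 0 (by norm_num)
    rw [mul_zero] at this
    exact this
  | cons t P sub rest ih1 ih2 =>
    intro s h
    obtain ⟨h1, h2, h3, h4⟩ := h
    obtain ⟨a1, a2, a3, a4⟩ := ih1 t h3
    obtain ⟨b1, b2, b3, -⟩ := ih2 s h4
    have hpos : (vert t P sub.tangle).Pos (sg t) 0 := by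
      by_cases hsub : sub = Forest.nil
      · refine vert_pos' a1 (h2.resolve_right fun h => h hsub) ?_
        have : sub.opp t = 0 := by rw [hsub]; rfl
        rw [this] at a3
        exact a3
      · exact vert_pos a1 (fun i => (h1 i).mono (by omega)) (a4 hsub)
    have i1 : (vert t P sub.tangle).inv.Std := Tangle.inv_std (vert_std a1)
    have i2 : (vert t P sub.tangle).inv.Rig :=
      Tangle.inv_rig (vert_std a1) (vert_rig a2 fun i => (h1 i).mono (by omega)) (sg_cases t) hpos
    have i3 : (vert t P sub.tangle).inv.Pos (sg s) ((if t = s then 0 else 1 : ℕ) : ℤ) := by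
      by_cases hts : t = s
      · rw [if_pos hts, ← hts]
        exact Tangle.inv_pos (vert_std a1) (sg_cases t) hpos
      · rw [if_neg hts] at h1 ⊢
        rw [sg_ne hts]
        exact Tangle.inv_absorb (vert_std a1) (sg_cases t) (vert_nn a1 h1 a3)
    have i4 : (Forest.cons t P sub rest).tangle.Pos (sg s)
        ((Forest.cons t P sub rest).opp s) := by
      have := Tangle.add_pos i1 i3 b3
      rw [← Nat.cast_add] at this
      exact this
    exact ⟨Tangle.add_std i1 b1, Tangle.add_rig i2 b2, i4.nn, fun _ => i4⟩

theorem tree_main {s : Bool} {P : ZMod 3 → Piece} {F : Forest} (h : Adm s P F) :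
    (vert s P F.tangle).Std ∧ (vert s P F.tangle).Rig ∧ (vert s P F.tangle).Pos (sg s) 0 := by
  obtain ⟨h1, h2, h3⟩ := h
  obtain ⟨a1, a2, a3, a4⟩ := forest_main F s h3
  refine ⟨vert_std a1, vert_rig a2 fun i => (h1 i).mono (by omega), ?_⟩
  by_cases hF : F = Forest.nil
  · refine vert_pos' a1 (h2.resolve_right fun h => h hF) ?_
    have : F.opp s = 0 := by rw [hF]; rfl
    rw [this] at a3
    exact a3
  · exact vert_pos a1 h1 (a4 hF)

end Pool.Agent.H34.TF
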